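import Pool.Agent.helper23.F2.Spec

set_option autoImplicit false

open scoped BigOperators

namespace Pool.Agent.F2

open Pool.Agent.helper23.TH

noncomputable section

open Classical

theorem AL3_step {V L : Type} {b s : ℕ} (G : LG V L b s) (t : ℕ) (x y : V) :
    ∀ q, ¬ G.Str t q x y → ∃ r, r < q ∧ G.Str t r x y ∧ ¬ G.Str t (r + 1) x y := by
  intro q
  induction q with
  | zero =>
    intro h
    exact absurd ⟨Fin.elim0, fun i => i.elim0, fun i => i.elim0⟩ h
  | succ q ih =>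
    intro h
    by_cases h1 : G.Str t q x y
    · exact ⟨q, Nat.lt_succ_self q, h1, h⟩
    · obtain ⟨r, h2, h3⟩ := ih h1
      exact ⟨r, Nat.lt_succ_of_lt h2, h3⟩

/-- a walk without conflicts from `x` to `y` has an inner object with a label in the given set -/
theorem AL3_hit {V L : Type} {b s : ℕ} (G : LG V L b s) (t r : ℕ) (x y : V)
    (Q : Fin r → Fin (t + 1) → V)
    (h1 : ∀ i, Wk G.A t (Q i) ∧ Q i 0 = x ∧ Q i (Fin.last t) = y ∧ G.Cln (Q i))
    (h2 : ∀ i j, i ≠ j → ∀ o o' : Ob t, Inn o → Inn o' → Disjoint (G.obj (Q i) o) (G.obj (Q j) o'))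
    (hn : ¬ G.Str t (r + 1) x y) (P : Fin (t + 1) → V) (hP : Wk G.A t P ∧ P 0 = x ∧ P (Fin.last t) = y)
    (hc : G.Cln P) : ∃ o : Ob t, Inn o ∧ ∃ i, ∃ o' : Ob t, Inn o' ∧ ∃ z, z ∈ G.obj P o ∧ z ∈ G.obj (Q i) o' := by
  by_contra hcon
  push Not at hcon
  have hdis : ∀ i, ∀ o o' : Ob t, Inn o → Inn o' → Disjoint (G.obj P o) (G.obj (Q i) o') := by
    intro i o o' ho ho'
    rw [Finset.disjoint_left]
    intro z hz
    exact hcon o ho i o' ho' z hz
  refine hn ⟨Fin.snoc (α := fun _ => Fin (t + 1) → V) Q P, ?_, ?_⟩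
  · intro i
    refine Fin.lastCases ?_ (fun i => ?_) i
    · simp only [Fin.snoc_last]
      exact ⟨hP.1, hP.2.1, hP.2.2, hc⟩
    · simp only [Fin.snoc_castSucc]
      exact h1 i
  · intro i j
    refine Fin.lastCases ?_ (fun i => ?_) i <;> refine Fin.lastCases ?_ (fun j => ?_) j
    · intro h
      exact absurd rfl h
    · intro _ o o' ho ho'
      simp only [Fin.snoc_last, Fin.snoc_castSucc]
      exact hdis j o o' ho ho'
    · intro _ o o' ho ho'
      simp only [Fin.snoc_last, Fin.snoc_castSucc]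
      exact (hdis i o' o ho' ho).symm
    · intro h o o' ho ho'
      simp only [Fin.snoc_castSucc]
      exact h2 i j (fun e => h (by rw [e])) o o' ho ho'

theorem AL3_obj {V L : Type} {b s : ℕ} (G : LG V L b s) {t : ℕ} (P : Fin (t + 1) → V) (o : Ob t) :
    (G.obj P o).card ≤ b := by
  rcases o with i | j
  · exact G.bv _
  · exact G.be _ _

theorem AL3_pt (hWK1 : WK1_stmt) {V L : Type} [Fintype V] [Fintype L] {b s : ℕ} (G : LG V L b s)
    (t q : ℕ) (x y : V) (h : ¬ G.Str t q x y) :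
    (((G.WW t x y).filter fun P => G.Cln P).card : ℝ) ^ 2 ≤
      (q * (2 * t + 1) ^ 2 * b) *
        ∑ o ∈ Finset.univ.filter (fun o : Ob t => Inn o), ∑ z : L, (G.MM t z o x y) ^ 2 := by
  obtain ⟨r, hr, ⟨Q, h1, h2⟩, hn⟩ := AL3_step G t x y q h
  set I : Finset (Ob t) := Finset.univ.filter (fun o : Ob t => Inn o) with hI
  set L0 : Finset L := (Finset.univ : Finset (Fin r)).biUnion fun i => I.biUnion fun o => G.obj (Q i) o with hL0
  have hIc : I.card ≤ 2 * t + 1 := by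
    refine (Finset.card_filter_le _ _).trans ?_
    rw [Finset.card_univ, Fintype.card_sum, Fintype.card_fin, Fintype.card_fin]
    omega
  have hLc : L0.card ≤ q * ((2 * t + 1) * b) := by
    refine Finset.card_biUnion_le.trans ?_
    refine (Finset.sum_le_card_nsmul _ _ ((2 * t + 1) * b) ?_).trans ?_
    · intro i _
      refine Finset.card_biUnion_le.trans ?_
      refine (Finset.sum_le_card_nsmul _ _ b fun o _ => AL3_obj G _ o).trans ?_
      rw [smul_eq_mul]
      exact Nat.mul_le_mul_right _ hIc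
    · rw [Finset.card_univ, Fintype.card_fin, smul_eq_mul]
      exact Nat.mul_le_mul_right _ hr.le
  -- the walks without conflicts are covered
  have hcov : ((G.WW t x y).filter fun P => G.Cln P) ⊆
      (L0 ×ˢ I).biUnion fun p => (G.WW t x y).filter fun P => p.1 ∈ G.obj P p.2 := by
    intro P hP
    rw [Finset.mem_filter] at hP
    have hP1 : Wk G.A t P ∧ P 0 = x ∧ P (Fin.last t) = y := by
      have := hP.1
      unfold LG.WW at this
      rw [Finset.mem_filter] at this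
      exact this.2
    obtain ⟨o, ho, i, o', ho', z, hz, hz'⟩ := AL3_hit G t r x y Q h1 h2 hn P hP1 hP.2
    rw [Finset.mem_biUnion]
    refine ⟨(z, o), ?_, Finset.mem_filter.2 ⟨hP.1, hz⟩⟩
    rw [Finset.mem_product]
    refine ⟨?_, Finset.mem_filter.2 ⟨Finset.mem_univ _, ho⟩⟩
    rw [hL0, Finset.mem_biUnion]
    refine ⟨i, Finset.mem_univ _, ?_⟩
    rw [Finset.mem_biUnion]
    exact ⟨o', Finset.mem_filter.2 ⟨Finset.mem_univ _, ho'⟩, hz'⟩
  have hcard : (((G.WW t x y).filter fun P => G.Cln P).card : ℝ) ≤ ∑ p ∈ L0 ×ˢ I, G.MM t p.1 p.2 x y := by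
    have h3 := (Finset.card_le_card hcov).trans Finset.card_biUnion_le
    calc (((G.WW t x y).filter fun P => G.Cln P).card : ℝ)
        ≤ ((∑ p ∈ L0 ×ˢ I, ((G.WW t x y).filter fun P => p.1 ∈ G.obj P p.2).card : ℕ) : ℝ) := by
          exact_mod_cast h3
      _ = ∑ p ∈ L0 ×ˢ I, G.MM t p.1 p.2 x y := by
          push_cast
          exact Finset.sum_congr rfl fun p _ => hWK1 V L b s G t p.1 p.2 x y
  have hsq : (((G.WW t x y).filter fun P => G.Cln P).card : ℝ) ^ 2 ≤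
      ((L0 ×ˢ I).card : ℝ) * ∑ p ∈ L0 ×ˢ I, (G.MM t p.1 p.2 x y) ^ 2 :=
    (pow_le_pow_left₀ (Nat.cast_nonneg _) hcard 2).trans sq_sum_le_card_mul_sum_sq
  have hS : ∑ p ∈ L0 ×ˢ I, (G.MM t p.1 p.2 x y) ^ 2 ≤ ∑ o ∈ I, ∑ z : L, (G.MM t z o x y) ^ 2 := by
    rw [Finset.sum_product_right]
    refine Finset.sum_le_sum fun o _ => ?_
    exact Finset.sum_le_sum_of_subset_of_nonneg (Finset.subset_univ _) fun z _ _ => sq_nonneg _
  have hS0 : 0 ≤ ∑ o ∈ I, ∑ z : L, (G.MM t z o x y) ^ 2 :=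
    Finset.sum_nonneg fun o _ => Finset.sum_nonneg fun z _ => sq_nonneg _
  have hN : ((L0 ×ˢ I).card : ℝ) ≤ q * (2 * t + 1) ^ 2 * b := by
    have h4 : (L0 ×ˢ I).card ≤ q * (2 * t + 1) ^ 2 * b := by
      rw [Finset.card_product]
      calc L0.card * I.card ≤ (q * ((2 * t + 1) * b)) * (2 * t + 1) := Nat.mul_le_mul hLc hIc
        _ = q * (2 * t + 1) ^ 2 * b := by ring
    exact_mod_cast h4
  calc (((G.WW t x y).filter fun P => G.Cln P).card : ℝ) ^ 2
      ≤ ((L0 ×ˢ I).card : ℝ) * ∑ p ∈ L0 ×ˢ I, (G.MM t p.1 p.2 x y) ^ 2 := hsq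
    _ ≤ ((L0 ×ˢ I).card : ℝ) * ∑ o ∈ I, ∑ z : L, (G.MM t z o x y) ^ 2 :=
        mul_le_mul_of_nonneg_left hS (Nat.cast_nonneg _)
    _ ≤ (q * (2 * t + 1) ^ 2 * b) * ∑ o ∈ I, ∑ z : L, (G.MM t z o x y) ^ 2 :=
        mul_le_mul_of_nonneg_right hN hS0

theorem AL3 (hWK1 : WK1_stmt) : AL3_stmt := by
  intro V L _ _ b s G t q
  have h1 : ∀ x y : V, (if G.Str t q x y then (0 : ℝ) else
      (((G.WW t x y).filter fun P => G.Cln P).card : ℝ) ^ 2) ≤
      (q * (2 * t + 1) ^ 2 * b) *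
        ∑ o ∈ Finset.univ.filter (fun o : Ob t => Inn o), ∑ z : L, (G.MM t z o x y) ^ 2 := by
    intro x y
    split_ifs with h
    · refine mul_nonneg (by positivity) (Finset.sum_nonneg fun o _ => Finset.sum_nonneg fun z _ => sq_nonneg _)
    · exact AL3_pt hWK1 G t q x y h
  refine (Finset.sum_le_sum fun x _ => Finset.sum_le_sum fun y _ => h1 x y).trans (le_of_eq ?_)
  simp_rw [← Finset.mul_sum]
  congr 1
  have h2 : ∀ o : Ob t, G.FF t o = ∑ x, ∑ y, ∑ z : L, (G.MM t z o x y) ^ 2 := by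
    intro o
    unfold LG.FF nsq
    rw [Finset.sum_comm]
    exact Finset.sum_congr rfl fun x _ => Finset.sum_comm
  simp_rw [h2]
  rw [Finset.sum_comm' (t' := Finset.univ) (s' := fun _ => Finset.univ.filter (fun o : Ob t => Inn o))
    (by intro x y; simp [and_comm])]
  refine (Finset.sum_congr rfl fun x _ => ?_).symm
  rw [Finset.sum_comm]

end

end Pool.Agent.F2
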